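import Pool.Agent.H73.KM.Walk
import Pool.Agent.H94.KM.Comp
import Pool.Agent.H94.KM.Tensor

/-!
Existence of a Stembridge crystal generated by a highest element of given dominant weight.
-/

set_option autoImplicit false

open scoped Classical

namespace Pool.Agent.H73.KM

open Pool.Agent.H59.KY Pool.Agent.H94.KM

variable {Y : Cartan}

theorem exists_hw (hY : SL Y) (lam : Y.I → ℕ) : ∃ (X : Crystal Y) (u : X.B),
    St X ∧ Gen X u ∧ ∀ i, X.wt u i = lam i :=
  exists_hw_of hY (fun _ _ h1 h2 => St.tensor hY h1 h2)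
    (fun X u hX hu => ⟨comp hY X hX.1 u hu, compTop hY X hX.1 u hu, comp_st hY X hX u hu,
      comp_gen hY X hX.1 u hu, ((compIncl hY X hX.1 u hu).map_wt (compTop hY X hX.1 u hu)).symm⟩) lam

end Pool.Agent.H73.KM
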