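import Pool.Agent.H59.KY.Basic
import Pool.Agent.H94.KM.Stem

/-!
A crystal generated by a highest element is finite.
-/

set_option autoImplicit false

open scoped Classical

namespace Pool.Agent.H73.KM

open Pool.Agent.H59.KY Pool.Agent.H94.KM

variable {C : Cartan}

/-- going up an `i`-string -/
theorem exists_up (X : Crystal C) (i : C.I) (k : ℕ) : ∀ b : X.B, k ≤ X.eps i b →
    ∃ b', X.wt b' = X.wt b + (k : ℤ) • C.al i := by
  induction k with
  | zero =>
    intro b _
    exact ⟨b, by simp⟩
  | succ k ih =>
    intro b hb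
    rcases h : X.e i b with _ | c
    · rw [X.eps_none i b h] at hb
      omega
    · obtain ⟨b', hb'⟩ := ih c (by rw [X.eps_some i b c h] at hb; omega)
      refine ⟨b', ?_⟩
      rw [hb', X.wt_e i b c h]
      push_cast
      rw [add_smul, one_smul]
      abel

/-- the form, in coordinates of simple roots -/
def bf (C : Cartan) (d : C.I → ℚ) (x y : C.I → ℚ) : ℚ :=
  ∑ i, ∑ j, d i * (C.A i j : ℚ) * x i * y j

theorem bf_eq (d : C.I → ℚ) (x y : C.I → ℚ) :
    bf C d x y = ∑ i, d i * x i * ∑ j, (C.A i j : ℚ) * y j := by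
  unfold bf
  refine Finset.sum_congr rfl (fun i _ => ?_)
  rw [Finset.mul_sum]
  exact Finset.sum_congr rfl (fun j _ => by ring)

theorem bf_comm (d : C.I → ℚ) (hsym : ∀ i j, d i * C.A i j = d j * C.A j i) (x y : C.I → ℚ) :
    bf C d x y = bf C d y x := by
  unfold bf
  rw [Finset.sum_comm]
  refine Finset.sum_congr rfl (fun i _ => Finset.sum_congr rfl (fun j _ => ?_))
  rw [hsym j i]
  ring

theorem bf_add_right (d : C.I → ℚ) (x y z : C.I → ℚ) :
    bf C d x (y + z) = bf C d x y + bf C d x z := by
  unfold bf
  simp only [Pi.add_apply, mul_add, Finset.sum_add_distrib]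

theorem bf_smul_right (d : C.I → ℚ) (c : ℚ) (x y : C.I → ℚ) :
    bf C d x (c • y) = c * bf C d x y := by
  unfold bf
  simp only [Pi.smul_apply, smul_eq_mul, Finset.mul_sum]
  exact Finset.sum_congr rfl (fun i _ => Finset.sum_congr rfl (fun j _ => by ring))

theorem bf_add_left (d : C.I → ℚ) (x y z : C.I → ℚ) :
    bf C d (x + y) z = bf C d x z + bf C d y z := by
  unfold bf
  simp only [Pi.add_apply, mul_add, add_mul, Finset.sum_add_distrib]

theorem bf_smul_left (d : C.I → ℚ) (c : ℚ) (x y : C.I → ℚ) :
    bf C d (c • x) y = c * bf C d x y := by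
  unfold bf
  simp only [Pi.smul_apply, smul_eq_mul, Finset.mul_sum]
  exact Finset.sum_congr rfl (fun i _ => Finset.sum_congr rfl (fun j _ => by ring))

theorem root_apply (n : C.I → ℤ) (i : C.I) : C.root n i = ∑ j, C.A i j * n j := by
  unfold Cartan.root
  rw [Finset.sum_apply]
  refine Finset.sum_congr rfl (fun j _ => ?_)
  rw [Pi.smul_apply, smul_eq_mul, Cartan.al, mul_comm]

theorem root_apply_cast (n : C.I → ℤ) (i : C.I) :
    ((C.root n i : ℤ) : ℚ) = ∑ j, (C.A i j : ℚ) * (n j : ℚ) := by
  rw [root_apply]
  push_cast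
  rfl

theorem bf_root (d : C.I → ℚ) (x : C.I → ℚ) (n : C.I → ℤ) :
    bf C d x (fun j => (n j : ℚ)) = ∑ i, d i * x i * ((C.root n i : ℤ) : ℚ) := by
  rw [bf_eq]
  refine Finset.sum_congr rfl (fun i _ => ?_)
  rw [root_apply_cast]

/-- the weights of a crystal with a highest generator are not longer than the highest weight -/
theorem norm_bound (X : Crystal C) (u : X.B) (hu : Gen X u) (d : C.I → ℚ) (hd : ∀ i, 0 < d i)
    (hsym : ∀ i j, d i * C.A i j = d j * C.A j i) (N : ℕ) :
    ∀ (b : X.B) (n : C.I → ℕ), X.wt b = X.wt u - C.root (fun j => (n j : ℤ)) → ∑ j, n j = N →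
      bf C d (fun j => (n j : ℚ)) (fun j => (n j : ℚ)) ≤
        2 * ∑ i, d i * (n i : ℚ) * ((X.wt u i : ℤ) : ℚ) := by
  induction N using Nat.strong_induction_on with
  | _ N ih =>
    intro b n hb hN
    have hu0 : ∀ i, 0 ≤ X.wt u i := by
      intro i
      have h1 := X.phi_eps i u
      rw [X.eps_none i u (hu.1 i)] at h1
      omega
    have hcast : (fun j => (n j : ℚ)) = (fun j => (((n j : ℕ) : ℤ) : ℚ)) := by
      funext j
      push_cast
      rfl
    by_cases hdom : ∀ i, 0 ≤ X.wt b i
    · have h1 : bf C d (fun j => (n j : ℚ)) (fun j => (n j : ℚ)) =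
          ∑ i, d i * (n i : ℚ) * ((C.root (fun j => ((n j : ℕ) : ℤ)) i : ℤ) : ℚ) := by
        conv_lhs => rw [hcast]
        rw [bf_root]
        rfl
      rw [h1, Finset.mul_sum]
      refine Finset.sum_le_sum (fun i _ => ?_)
      have h2 : C.root (fun j => ((n j : ℕ) : ℤ)) i = X.wt u i - X.wt b i := by
        rw [hb, Pi.sub_apply]
        ring
      rw [h2]
      push_cast
      have h3 : (0 : ℚ) ≤ ((X.wt b i : ℤ) : ℚ) := by exact_mod_cast hdom i
      have h4 : (0 : ℚ) ≤ ((X.wt u i : ℤ) : ℚ) := by exact_mod_cast hu0 i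
      have h5 : (0 : ℚ) ≤ d i * (n i : ℚ) := mul_nonneg (hd i).le (Nat.cast_nonneg _)
      nlinarith [mul_nonneg h5 h3, mul_nonneg h5 h4]
    · push Not at hdom
      obtain ⟨i, hi⟩ := hdom
      obtain ⟨k, hk⟩ : ∃ k : ℕ, (k : ℤ) = - X.wt b i := ⟨(- X.wt b i).toNat, by omega⟩
      have hk0 : 0 < k := by omega
      obtain ⟨b', hb'⟩ := exists_up X i k b (by
        have h1 := X.phi_eps i b
        omega)
      obtain ⟨l, hl⟩ := hu.2 b'
      have h1 := wt_fword X l u b' hl
      have h2 : C.root ((fun j => ((l.count j : ℕ) : ℤ)) + Pi.single i (k : ℤ)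
          + -(fun j => ((n j : ℕ) : ℤ))) = 0 := by
        rw [root_add, root_add, root_single, root_neg]
        rw [hb', hb] at h1
        linear_combination h1
      have h3 : ∀ j, (l.count j : ℤ) + (Pi.single i (k : ℤ) : C.I → ℤ) j = n j := by
        intro j
        have h4 := congrFun (root_indep _ h2) j
        simp only [Pi.add_apply, Pi.neg_apply, Pi.zero_apply] at h4
        linear_combination h4
      have h5 : (∑ j, (l.count j : ℤ)) + k = N := by
        have h6 : ∑ j, ((l.count j : ℤ) + (Pi.single i (k : ℤ) : C.I → ℤ) j) = ∑ j, (n j : ℤ) :=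
          Finset.sum_congr rfl (fun j _ => h3 j)
        rw [Finset.sum_add_distrib, Finset.sum_pi_single', if_pos (Finset.mem_univ i)] at h6
        rw [h6]
        exact_mod_cast hN
      have h7 : (∑ j, l.count j) + k = N := by exact_mod_cast h5
      have h8 := ih (∑ j, l.count j) (by omega) b' (fun j => l.count j) h1 rfl
      -- the norm does not change
      have h9 : (fun j => (n j : ℚ)) =
          (fun j => (l.count j : ℚ)) + (k : ℚ) • (Pi.single i 1 : C.I → ℚ) := by
        funext j
        have h10 : ((n j : ℤ) : ℚ) = (((l.count j : ℤ) + (Pi.single i (k : ℤ) : C.I → ℤ) j : ℤ) : ℚ) := by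
          rw [h3 j]
        push_cast at h10
        rw [Pi.add_apply, Pi.smul_apply, smul_eq_mul]
        rw [h10]
        by_cases hj : j = i
        · subst hj
          simp
        · rw [Pi.single_eq_of_ne hj, Pi.single_eq_of_ne hj]
          simp
      have h11 : bf C d (Pi.single i 1 : C.I → ℚ) (fun j => (l.count j : ℚ)) =
          d i * (((X.wt u i : ℤ) : ℚ) - (k : ℚ)) := by
        have h12 : (fun j => (l.count j : ℚ)) = (fun j => (((l.count j : ℕ) : ℤ) : ℚ)) := by
          funext j
          push_cast
          rfl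
        rw [h12, bf_root, Finset.sum_eq_single i]
        · have h13 : C.root (fun j => ((l.count j : ℕ) : ℤ)) i = X.wt u i - k := by
            have h14 : X.wt b' i = X.wt u i - C.root (fun j => ((l.count j : ℕ) : ℤ)) i := by
              rw [h1, Pi.sub_apply]
            have h15 : X.wt b' i = X.wt b i + k * 2 := by
              rw [hb', Pi.add_apply, Pi.smul_apply, smul_eq_mul]
              change _ + (k : ℤ) * C.A i i = _
              rw [C.diag]
            omega
          rw [h13, Pi.single_eq_same]
          push_cast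
          ring
        · intro j _ hj
          rw [Pi.single_eq_of_ne hj]
          ring
        · intro h
          exact absurd (Finset.mem_univ i) h
      have h16 : bf C d (Pi.single i 1 : C.I → ℚ) (Pi.single i 1 : C.I → ℚ) = d i * 2 := by
        unfold bf
        rw [Finset.sum_eq_single i]
        · rw [Finset.sum_eq_single i]
          · rw [Pi.single_eq_same, C.diag]
            push_cast
            ring
          · intro j _ hj
            rw [Pi.single_eq_of_ne hj]
            ring
          · intro h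
            exact absurd (Finset.mem_univ i) h
        · intro j _ hj
          refine Finset.sum_eq_zero (fun k _ => ?_)
          rw [Pi.single_eq_of_ne hj]
          ring
        · intro h
          exact absurd (Finset.mem_univ i) h
      have h17 : bf C d (fun j => (n j : ℚ)) (fun j => (n j : ℚ)) =
          bf C d (fun j => (l.count j : ℚ)) (fun j => (l.count j : ℚ)) +
            2 * (k : ℚ) * d i * ((X.wt u i : ℤ) : ℚ) := by
        rw [h9, bf_add_right, bf_smul_right, bf_add_left, bf_add_left, bf_smul_left, bf_smul_left,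
          bf_comm d hsym (fun j => (l.count j : ℚ)) (Pi.single i 1), h11, h16]
        ring
      have h18 : ∑ j, d j * (n j : ℚ) * ((X.wt u j : ℤ) : ℚ) =
          (∑ j, d j * (l.count j : ℚ) * ((X.wt u j : ℤ) : ℚ)) +
            (k : ℚ) * d i * ((X.wt u i : ℤ) : ℚ) := by
        have h19 : ∀ j, d j * (n j : ℚ) * ((X.wt u j : ℤ) : ℚ) =
            d j * (l.count j : ℚ) * ((X.wt u j : ℤ) : ℚ) +
              (Pi.single i ((k : ℚ) * d i * ((X.wt u i : ℤ) : ℚ)) : C.I → ℚ) j := by
          intro j
          have h20 := congrFun h9 j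
          rw [Pi.add_apply, Pi.smul_apply, smul_eq_mul] at h20
          rw [h20]
          by_cases hj : j = i
          · subst hj
            rw [Pi.single_eq_same, Pi.single_eq_same]
            ring
          · rw [Pi.single_eq_of_ne hj, Pi.single_eq_of_ne hj]
            ring
        rw [Finset.sum_congr rfl (fun j _ => h19 j), Finset.sum_add_distrib,
          Finset.sum_pi_single', if_pos (Finset.mem_univ i)]
      rw [h17, h18]
      have h8' : bf C d (fun j => (l.count j : ℚ)) (fun j => (l.count j : ℚ)) ≤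
          2 * ∑ j, d j * (l.count j : ℚ) * ((X.wt u j : ℤ) : ℚ) := h8
      linarith

theorem sum_count (l : List C.I) : ∑ j, l.count j = l.length := by
  induction l with
  | nil => simp
  | cons i l ih =>
    have h1 : ∀ j, (i :: l).count j = l.count j + (Pi.single i 1 : C.I → ℕ) j := by
      intro j
      rw [List.count_cons]
      by_cases hj : j = i
      · subst hj
        simp
      · rw [Pi.single_eq_of_ne hj]
        have : ¬ (i == j) = true := by
          simp only [beq_iff_eq]
          exact fun h => hj h.symm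
        simp [this]
    rw [Finset.sum_congr rfl (fun j _ => h1 j), Finset.sum_add_distrib, ih,
      Finset.sum_pi_single', if_pos (Finset.mem_univ i), List.length_cons]

/-- a linear equation with the Cartan matrix -/
theorem exists_sol (C : Cartan) (v : C.I → ℚ) : ∃ y : C.I → ℚ, ∀ i, ∑ j, (C.A i j : ℚ) * y j = v i := by
  obtain ⟨d, hd, hsym, hpos⟩ := C.pos
  let L : (C.I → ℚ) →ₗ[ℚ] (C.I → ℚ) :=
    { toFun := fun y i => ∑ j, (C.A i j : ℚ) * y j
      map_add' := by
        intro x y
        funext i
        simp only [Pi.add_apply, mul_add, Finset.sum_add_distrib]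
      map_smul' := by
        intro c x
        funext i
        simp only [Pi.smul_apply, smul_eq_mul, RingHom.id_apply, Finset.mul_sum]
        exact Finset.sum_congr rfl (fun j _ => by ring) }
  have hinj : Function.Injective L := by
    rw [injective_iff_map_eq_zero]
    intro y hy
    by_contra hne
    have h1 := hpos y hne
    have h2 : ∑ i, ∑ j, d i * (C.A i j : ℚ) * y i * y j = 0 := by
      have h3 : bf C d y y = 0 := by
        rw [bf_eq]
        refine Finset.sum_eq_zero (fun i _ => ?_)
        have h4 : ∑ j, (C.A i j : ℚ) * y j = 0 := congrFun hy i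
        rw [h4, mul_zero]
      exact h3
    rw [h2] at h1
    exact lt_irrefl _ h1
  obtain ⟨y, hy⟩ := (LinearMap.injective_iff_surjective.mp hinj) v
  exact ⟨y, fun i => congrFun hy i⟩

theorem finite_of_gen (C : Cartan) (X : Crystal C) (u : X.B) (hu : Gen X u) : Finite X.B := by
  obtain ⟨d, hd, hsym, hpos⟩ := C.pos
  obtain ⟨y, hy⟩ := exists_sol C (fun i => ((X.wt u i : ℤ) : ℚ))
  obtain ⟨z, hz⟩ := exists_sol C (fun i => 1 / d i)
  have hnn : ∀ v : C.I → ℚ, 0 ≤ bf C d v v := by
    intro v
    by_cases hv : v = 0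
    · rw [hv]
      unfold bf
      simp
    · exact (hpos v hv).le
  have hsumz : ∀ v : C.I → ℚ, bf C d v z = ∑ i, v i := by
    intro v
    rw [bf_eq]
    refine Finset.sum_congr rfl (fun i _ => ?_)
    rw [hz i]
    have := (hd i).ne'
    field_simp
  -- Cauchy-Schwarz
  have hCS : ∀ v : C.I → ℚ, (∑ i, v i) ^ 2 ≤ bf C d v v * bf C d z z := by
    intro v
    rw [← hsumz v]
    by_cases h0 : z = 0
    · have h1 : bf C d v z = 0 := by
        rw [h0]
        unfold bf
        simp
      rw [h1]
      have := mul_nonneg (hnn v) (hnn z)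
      nlinarith
    · have h1 : 0 < bf C d z z := hpos z h0
      have h2 := hnn ((bf C d z z) • v + (-(bf C d v z)) • z)
      rw [bf_add_right, bf_smul_right, bf_smul_right, bf_add_left, bf_add_left, bf_smul_left,
        bf_smul_left, bf_smul_left, bf_smul_left, bf_comm d hsym z v] at h2
      have h3 : 0 ≤ bf C d z z * (bf C d v v * bf C d z z - bf C d v z ^ 2) := by
        nlinarith
      have h4 := nonneg_of_mul_nonneg_right h3 h1
      linarith
  obtain ⟨N, hN⟩ := exists_nat_ge (∑ i, y i + (bf C d y y * bf C d z z + 1))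
  have hlen : ∀ b : X.B, ∃ l : List C.I, l.length ≤ N ∧ X.fword l u = some b := by
    intro b
    obtain ⟨l, hl⟩ := hu.2 b
    refine ⟨l, ?_, hl⟩
    have h1 := norm_bound X u hu d hd hsym _ b (fun j => l.count j) (wt_fword X l u b hl) rfl
    have h2 : bf C d (fun j => (l.count j : ℚ)) y =
        ∑ i, d i * (l.count i : ℚ) * ((X.wt u i : ℤ) : ℚ) := by
      rw [bf_eq]
      exact Finset.sum_congr rfl (fun i _ => by rw [hy i])
    have h3 : bf C d ((fun j => (l.count j : ℚ)) + (-1 : ℚ) • y)
        ((fun j => (l.count j : ℚ)) + (-1 : ℚ) • y) ≤ bf C d y y := by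
      rw [bf_add_right, bf_smul_right, bf_add_left, bf_add_left, bf_smul_left, bf_smul_left,
        bf_comm d hsym y (fun j => (l.count j : ℚ)), h2]
      have h1' : bf C d (fun j => (l.count j : ℚ)) (fun j => (l.count j : ℚ)) ≤
        2 * ∑ i, d i * (l.count i : ℚ) * ((X.wt u i : ℤ) : ℚ) := h1
      linarith
    have h4 := hCS ((fun j => (l.count j : ℚ)) + (-1 : ℚ) • y)
    have h5 : ∑ i, ((fun j => (l.count j : ℚ)) + (-1 : ℚ) • y) i = (l.length : ℚ) - ∑ i, y i := by
      simp only [Pi.add_apply, Pi.smul_apply, smul_eq_mul, Finset.sum_add_distrib]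
      rw [← sum_count l]
      push_cast
      simp only [neg_mul, one_mul, Finset.sum_neg_distrib]
      ring
    rw [h5] at h4
    have h6 := mul_le_mul_of_nonneg_right h3 (hnn z)
    have h7 : ((l.length : ℚ) - ∑ i, y i) ^ 2 ≤ bf C d y y * bf C d z z := h4.trans h6
    have h8 : (l.length : ℚ) - ∑ i, y i ≤ bf C d y y * bf C d z z + 1 := by
      nlinarith [sq_nonneg ((l.length : ℚ) - ∑ i, y i - 1)]
    have h9 : (l.length : ℚ) ≤ N := by linarith
    exact_mod_cast h9
  have hfin : Finite {l : List C.I // l.length ≤ N} :=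
    (List.finite_length_le C.I N).to_subtype
  exact Finite.of_surjective (fun l : {l : List C.I // l.length ≤ N} => (X.fword l.1 u).getD u)
    (by
      intro b
      obtain ⟨l, h1, h2⟩ := hlen b
      exact ⟨⟨l, h1⟩, by dsimp only; rw [h2]; rfl⟩)

end Pool.Agent.H73.KM
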