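import Pool.Agent.H94.KM.Stem

/-!
The form of a simply laced Cartan matrix and its vectors of norm two.
-/

set_option autoImplicit false

open scoped Classical

namespace Pool.Agent.H73.KM

open Pool.Agent.H59.KY Pool.Agent.H94.KM

variable {Y : Cartan}

theorem sl_symm (hY : SL Y) (i j : Y.I) : Y.A i j = Y.A j i := by
  by_cases h : i = j
  · rw [h]
  · rcases hY i j h with ⟨h1, h2⟩ | ⟨h1, h2⟩ <;> rw [h1, h2]

/-- the weight of a vector of the root lattice -/
def rwt (x : Y.I → ℤ) : Y.Wt := fun i => ∑ j, Y.A i j * x j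

/-- value of a weight on a vector of the root lattice (identified with the coroot lattice) -/
def pr (x : Y.I → ℤ) (lam : Y.Wt) : ℤ := ∑ i, x i * lam i

/-- norm -/
def nm (x : Y.I → ℤ) : ℤ := pr x (rwt x)

/-- simple root -/
noncomputable def sg (i : Y.I) : Y.I → ℤ := Pi.single i 1

theorem rwt_add (x y : Y.I → ℤ) : rwt (x + y) = rwt x + rwt y := by
  funext i
  simp only [rwt, Pi.add_apply, mul_add, Finset.sum_add_distrib]

theorem rwt_smul (c : ℤ) (x : Y.I → ℤ) : rwt (c • x) = c • rwt x := by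
  funext i
  simp only [rwt, Pi.smul_apply, smul_eq_mul, Finset.mul_sum]
  exact Finset.sum_congr rfl (fun j _ => by ring)

theorem rwt_neg (x : Y.I → ℤ) : rwt (-x) = -rwt x := by
  funext i
  simp only [rwt, Pi.neg_apply, mul_neg, Finset.sum_neg_distrib]

theorem rwt_sub (x y : Y.I → ℤ) : rwt (x - y) = rwt x - rwt y := by
  rw [sub_eq_add_neg, rwt_add, rwt_neg, ← sub_eq_add_neg]

theorem rwt_sg (i : Y.I) : rwt (sg i) = Y.al i := by
  funext j
  simp [rwt, sg, Cartan.al, Pi.single_apply]

theorem rwt_sg_apply (i j : Y.I) : rwt (sg i) j = Y.A j i := by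
  rw [rwt_sg]
  rfl

theorem pr_add_left (x y : Y.I → ℤ) (lam : Y.Wt) : pr (x + y) lam = pr x lam + pr y lam := by
  simp only [pr, Pi.add_apply, add_mul, Finset.sum_add_distrib]

theorem pr_smul_left (c : ℤ) (x : Y.I → ℤ) (lam : Y.Wt) : pr (c • x) lam = c * pr x lam := by
  simp only [pr, Pi.smul_apply, smul_eq_mul, Finset.mul_sum]
  exact Finset.sum_congr rfl (fun j _ => by ring)

theorem pr_neg_left (x : Y.I → ℤ) (lam : Y.Wt) : pr (-x) lam = -pr x lam := by
  simp only [pr, Pi.neg_apply, neg_mul, Finset.sum_neg_distrib]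

theorem pr_sub_left (x y : Y.I → ℤ) (lam : Y.Wt) : pr (x - y) lam = pr x lam - pr y lam := by
  rw [sub_eq_add_neg, pr_add_left, pr_neg_left, ← sub_eq_add_neg]

theorem pr_add_right (x : Y.I → ℤ) (lam mu : Y.Wt) : pr x (lam + mu) = pr x lam + pr x mu := by
  simp only [pr, Pi.add_apply, mul_add, Finset.sum_add_distrib]

theorem pr_neg_right (x : Y.I → ℤ) (lam : Y.Wt) : pr x (-lam) = -pr x lam := by
  simp only [pr, Pi.neg_apply, mul_neg, Finset.sum_neg_distrib]

theorem pr_sub_right (x : Y.I → ℤ) (lam mu : Y.Wt) : pr x (lam - mu) = pr x lam - pr x mu := by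
  rw [sub_eq_add_neg, pr_add_right, pr_neg_right, ← sub_eq_add_neg]

theorem pr_smul_right (c : ℤ) (x : Y.I → ℤ) (lam : Y.Wt) : pr x (c • lam) = c * pr x lam := by
  simp only [pr, Pi.smul_apply, smul_eq_mul, Finset.mul_sum]
  exact Finset.sum_congr rfl (fun j _ => by ring)

theorem pr_sg (i : Y.I) (lam : Y.Wt) : pr (sg i) lam = lam i := by
  simp [pr, sg, Pi.single_apply]

/-- the form is symmetric -/
theorem pr_rwt_comm (hY : SL Y) (x y : Y.I → ℤ) : pr x (rwt y) = pr y (rwt x) := by
  simp only [pr, rwt, Finset.mul_sum]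
  rw [Finset.sum_comm]
  refine Finset.sum_congr rfl (fun i _ => Finset.sum_congr rfl (fun j _ => ?_))
  rw [sl_symm hY i j]
  ring

/-- value of the weight of a simple root -/
theorem pr_al (hY : SL Y) (x : Y.I → ℤ) (i : Y.I) : pr x (Y.al i) = rwt x i := by
  rw [← rwt_sg, pr_rwt_comm hY, pr_sg]

theorem nm_add_smul (hY : SL Y) (x : Y.I → ℤ) (c : ℤ) (i : Y.I) :
    nm (x + c • sg i) = nm x + 2 * c * rwt x i + 2 * c * c := by
  have h1 : rwt (sg i) i = 2 := by rw [rwt_sg_apply, Y.diag]
  unfold nm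
  rw [rwt_add, rwt_smul, pr_add_left, pr_add_right, pr_add_right, pr_smul_right, pr_smul_left,
    pr_smul_left, pr_smul_right, pr_sg, pr_sg, h1, pr_rwt_comm hY x (sg i), pr_sg]
  ring

theorem nm_add_sg (hY : SL Y) (x : Y.I → ℤ) (i : Y.I) :
    nm (x + sg i) = nm x + 2 * rwt x i + 2 := by
  have h := nm_add_smul hY x 1 i
  rw [one_smul] at h
  rw [h]
  ring

theorem nm_sub_sg (hY : SL Y) (x : Y.I → ℤ) (i : Y.I) :
    nm (x - sg i) = nm x - 2 * rwt x i + 2 := by
  have h := nm_add_smul hY x (-1) i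
  rw [neg_one_smul, ← sub_eq_add_neg] at h
  rw [h]
  ring

theorem nm_sg (i : Y.I) : nm (sg i) = 2 := by
  unfold nm
  rw [pr_sg, rwt_sg_apply, Y.diag]

theorem nm_neg (x : Y.I → ℤ) : nm (-x) = nm x := by
  unfold nm
  rw [rwt_neg, pr_neg_left, pr_neg_right, neg_neg]

/-- the rational form -/
def qf (x : Y.I → ℚ) : ℚ := ∑ i, ∑ j, (Y.A i j : ℚ) * x i * x j

theorem qf_cast (x : Y.I → ℤ) : qf (fun i => (x i : ℚ)) = (nm x : ℚ) := by
  unfold qf nm pr rwt
  push_cast
  refine Finset.sum_congr rfl (fun i _ => ?_)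
  rw [Finset.mul_sum]
  exact Finset.sum_congr rfl (fun j _ => by ring)

/-- the form is positive definite -/
theorem qf_pos (hY : SL Y) (x : Y.I → ℚ) (hx : x ≠ 0) : 0 < qf x := by
  obtain ⟨d, hd, hsym, hpos⟩ := Y.pos
  -- `d` is constant along edges
  have hedge : ∀ i j, d i ≠ d j → Y.A i j = 0 := by
    intro i j h
    have hne : i ≠ j := fun h' => h (by rw [h'])
    rcases hY i j hne with ⟨h1, _⟩ | ⟨h1, h2⟩
    · exact h1
    · exfalso
      have := hsym i j
      rw [h1, h2] at this
      push_cast at this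
      exact h (by linarith)
  let S : Finset ℚ := Finset.univ.image d
  let P : ℚ → (Y.I → ℚ) := fun c i => if d i = c then x i else 0
  have hsplit : qf x = ∑ c ∈ S, ∑ i, ∑ j, (Y.A i j : ℚ) * P c i * P c j := by
    rw [Finset.sum_comm]
    unfold qf
    refine Finset.sum_congr rfl (fun i _ => ?_)
    rw [Finset.sum_comm]
    refine Finset.sum_congr rfl (fun j _ => ?_)
    have hi : d i ∈ S := Finset.mem_image_of_mem d (Finset.mem_univ i)
    rw [Finset.sum_eq_single_of_mem (d i) hi]
    · by_cases h : d i = d j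
      · simp only [P, if_pos, h]
      · rw [hedge i j h]
        simp
    · intro c _ hc
      have : P c i = 0 := if_neg (fun h => hc h.symm)
      rw [this]
      ring
  have hnn : ∀ c ∈ S, 0 < c ∧ (P c ≠ 0 → 0 < ∑ i, ∑ j, (Y.A i j : ℚ) * P c i * P c j) := by
    intro c hc
    obtain ⟨k, _, hk⟩ := Finset.mem_image.mp hc
    have hc0 : 0 < c := by rw [← hk]; exact hd k
    refine ⟨hc0, fun hP => ?_⟩
    have h1 := hpos (P c) hP
    have h2 : ∑ i, ∑ j, d i * (Y.A i j : ℚ) * P c i * P c j
        = c * ∑ i, ∑ j, (Y.A i j : ℚ) * P c i * P c j := by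
      rw [Finset.mul_sum]
      refine Finset.sum_congr rfl (fun i _ => ?_)
      rw [Finset.mul_sum]
      refine Finset.sum_congr rfl (fun j _ => ?_)
      by_cases h : d i = c
      · rw [h]
        ring
      · have : P c i = 0 := if_neg h
        rw [this]
        ring
    rw [h2] at h1
    exact (mul_pos_iff_of_pos_left hc0).mp h1
  rw [hsplit]
  obtain ⟨k, hk⟩ : ∃ k, x k ≠ 0 := by
    by_contra hcon
    push Not at hcon
    exact hx (funext hcon)
  refine Finset.sum_pos' ?_ ⟨d k, Finset.mem_image_of_mem d (Finset.mem_univ k), ?_⟩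
  · intro c hc
    by_cases hP : P c = 0
    · rw [hP]
      simp
    · exact ((hnn c hc).2 hP).le
  · refine (hnn _ (Finset.mem_image_of_mem d (Finset.mem_univ k))).2 ?_
    intro h
    have h1 := congrFun h k
    simp only [P, if_true] at h1
    exact hk h1

theorem nm_pos (hY : SL Y) (x : Y.I → ℤ) (hx : x ≠ 0) : 0 < nm x := by
  have h1 : (fun i => (x i : ℚ)) ≠ 0 := by
    intro h
    apply hx
    funext i
    have := congrFun h i
    simpa using this
  have h2 := qf_pos hY _ h1
  rw [qf_cast] at h2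
  exact_mod_cast h2

theorem nm_nonneg (hY : SL Y) (x : Y.I → ℤ) : 0 ≤ nm x := by
  by_cases hx : x = 0
  · rw [hx]
    simp [nm, pr]
  · exact (nm_pos hY x hx).le

theorem eq_zero_of_nm (hY : SL Y) (x : Y.I → ℤ) (h : nm x ≤ 0) : x = 0 := by
  by_contra hx
  have := nm_pos hY x hx
  omega

/-- the form is even -/
theorem nm_even (hY : SL Y) (x : Y.I → ℤ) : Even (nm x) := by
  have h1 : ((nm x : ℤ) : ZMod 2) = 0 := by
    have h2 : nm x = ∑ p : Y.I × Y.I, Y.A p.1 p.2 * x p.1 * x p.2 := by
      rw [Fintype.sum_prod_type]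
      unfold nm pr rwt
      refine Finset.sum_congr rfl (fun i _ => ?_)
      rw [Finset.mul_sum]
      exact Finset.sum_congr rfl (fun j _ => by ring)
    rw [h2]
    push_cast
    refine Finset.sum_involution (fun p _ => (p.2, p.1)) ?_ ?_ ?_ ?_
    · rintro ⟨i, j⟩ _
      dsimp only
      rw [sl_symm hY j i]
      have : (2 : ZMod 2) = 0 := by decide
      calc ((Y.A i j : ℤ) : ZMod 2) * (x i : ZMod 2) * (x j : ZMod 2)
            + ((Y.A i j : ℤ) : ZMod 2) * (x j : ZMod 2) * (x i : ZMod 2)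
          = 2 * (((Y.A i j : ℤ) : ZMod 2) * (x i : ZMod 2) * (x j : ZMod 2)) := by ring
        _ = 0 := by rw [this, zero_mul]
    · rintro ⟨i, j⟩ _ hne heq
      have hij : i = j := (Prod.mk.inj heq).2
      apply hne
      dsimp only
      rw [hij, Y.diag]
      have : (((2 : ℤ) : ZMod 2)) = 0 := by decide
      rw [this]
      ring
    · intro p _
      exact Finset.mem_univ _
    · intro p _
      rfl
  exact (ZMod.intCast_zmod_eq_zero_iff_dvd (nm x) 2).mp h1 |>.elim (fun k hk => ⟨k, by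
    rw [hk]; push_cast; ring⟩)

/-- values of a root on the simple coroots -/
theorem root_le (hY : SL Y) (x : Y.I → ℤ) (hx : nm x = 2) (i : Y.I) : rwt x i ≤ 2 := by
  have h1 := nm_nonneg hY (x - sg i)
  rw [nm_sub_sg hY, hx] at h1
  omega

theorem root_ge (hY : SL Y) (x : Y.I → ℤ) (hx : nm x = 2) (i : Y.I) : -2 ≤ rwt x i := by
  have h1 := nm_nonneg hY (x + sg i)
  rw [nm_add_sg hY, hx] at h1
  omega

theorem root_eq (hY : SL Y) (x : Y.I → ℤ) (hx : nm x = 2) (i : Y.I) (h : rwt x i = 2) :
    x = sg i := by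
  have h1 : x - sg i = 0 := by
    apply eq_zero_of_nm hY
    rw [nm_sub_sg hY, hx, h]
    norm_num
  exact sub_eq_zero.mp h1

theorem root_eq_neg (hY : SL Y) (x : Y.I → ℤ) (hx : nm x = 2) (i : Y.I) (h : rwt x i = -2) :
    x = -sg i := by
  have h1 : x + sg i = 0 := by
    apply eq_zero_of_nm hY
    rw [nm_add_sg hY, hx, h]
    norm_num
  exact eq_neg_of_add_eq_zero_left h1

/-- a root is positive or negative -/
theorem root_sign (hY : SL Y) (x : Y.I → ℤ) (hx : nm x = 2) :
    (∀ i, 0 ≤ x i) ∨ (∀ i, x i ≤ 0) := by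
  let p : Y.I → ℤ := fun i => max (x i) 0
  let n : Y.I → ℤ := fun i => max (- x i) 0
  have hxp : x = p - n := by
    funext i
    simp only [p, n, Pi.sub_apply]
    rcases le_total (x i) 0 with h | h
    · rw [max_eq_right h, max_eq_left (by omega)]
      omega
    · rw [max_eq_left h, max_eq_right (by omega)]
      omega
  have hpn : pr p (rwt n) ≤ 0 := by
    unfold pr rwt
    refine Finset.sum_nonpos (fun i _ => ?_)
    rw [Finset.mul_sum]
    refine Finset.sum_nonpos (fun j _ => ?_)
    have hp : 0 ≤ p i := le_max_right _ _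
    have hn : 0 ≤ n j := le_max_right _ _
    by_cases hij : i = j
    · subst hij
      have : p i = 0 ∨ n i = 0 := by
        simp only [p, n]
        rcases le_total (x i) 0 with h | h
        · exact Or.inl (max_eq_right h)
        · exact Or.inr (max_eq_right (by omega))
      rcases this with h | h <;> rw [h] <;> simp
    · have h1 := Y.off i j hij
      have h2 := mul_nonneg hp hn
      nlinarith
  have hnm : nm x = nm p + nm n - 2 * pr p (rwt n) := by
    rw [hxp]
    unfold nm
    rw [rwt_sub, pr_sub_left, pr_sub_right, pr_sub_right, pr_rwt_comm hY n p]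
    ring
  by_cases hp0 : p = 0
  · right
    intro i
    have : p i = 0 := by rw [hp0]; rfl
    have h2 : x i ≤ p i := le_max_left _ _
    omega
  · by_cases hn0 : n = 0
    · left
      intro i
      have : n i = 0 := by rw [hn0]; rfl
      have h2 : - x i ≤ n i := le_max_left _ _
      omega
    · exfalso
      have h1 := nm_pos hY p hp0
      have h2 := nm_pos hY n hn0
      obtain ⟨a, ha⟩ := nm_even hY p
      obtain ⟨b, hb⟩ := nm_even hY n
      omega

/-- reflection of a vector of norm two -/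
theorem nm_refl (hY : SL Y) (x : Y.I → ℤ) (hx : nm x = 2) (i : Y.I) :
    nm (x + (- rwt x i) • sg i) = 2 := by
  rw [nm_add_smul hY, hx]
  ring

end Pool.Agent.H73.KM
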