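import Pool.Agent.H73.KM.Form

/-!
Two Stembridge crystals over a simply laced Cartan matrix: the weights with small values on the
roots, and the adjoint crystal.
-/

set_option autoImplicit false

open scoped Classical

namespace Pool.Agent.H73.KM

open Pool.Agent.H59.KY Pool.Agent.H94.KM

variable {Y : Cartan}

/-- an involution exchanging `e` and `f` -/
theorem stE_dual_of_symm {X : Crystal Y} (hX : StE X) (σ : X.B → X.B) (hσ : ∀ b, σ (σ b) = b)
    (he : ∀ i b, X.e i (σ b) = (X.f i b).map σ) (heps : ∀ i b, X.eps i (σ b) = X.phi i b)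
    (hphi : ∀ i b, X.phi i (σ b) = X.eps i b) : StE (dual X) := by
  have hinj : ∀ a b, σ a = σ b → a = b := by
    intro a b h
    rw [← hσ a, h, hσ]
  have hs : ∀ i b b', X.f i b = some b' → X.e i (σ b) = some (σ b') := by
    intro i b b' h
    rw [he, h]
    rfl
  have hs' : ∀ i b w, X.e i (σ b) = some w → X.f i b = some (σ w) := by
    intro i b w h
    rw [he, Option.map_eq_some_iff] at h
    obtain ⟨a, h1, h2⟩ := h
    rw [h1, ← h2, hσ]
  refine ⟨?_, ?_, ?_⟩
  · intro i j (x : X.B) (x' : X.B) hij h
    change X.f i x = some x' at h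
    change X.phi j x ≤ X.phi j x' ∧ X.eps j x' ≤ X.eps j x
    have h1 := hX.s1 i j (σ x) (σ x') hij (hs _ _ _ h)
    rw [heps, heps, hphi, hphi] at h1
    exact h1
  · intro i j (x : X.B) (a : X.B) (b : X.B) hij ha hb h
    change X.f i x = some a at ha
    change X.f j x = some b at hb
    change X.phi j a = X.phi j x at h
    change ∃ w, X.f j a = some w ∧ X.f i b = some w ∧ X.eps i w = X.eps i a
    obtain ⟨w, h1, h2, h3⟩ := hX.s5 i j (σ x) (σ a) (σ b) hij (hs _ _ _ ha) (hs _ _ _ hb)
      (by rw [heps, heps]; exact h)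
    refine ⟨σ w, hs' _ _ _ h1, hs' _ _ _ h2, ?_⟩
    rw [hphi] at h3
    rw [← h3]
    have := hphi i (σ w)
    rw [hσ] at this
    exact this.symm
  · intro i j (x : X.B) (a : X.B) (b : X.B) hij ha hb h h'
    change X.f i x = some a at ha
    change X.f j x = some b at hb
    change X.phi j a = X.phi j x + 1 at h
    change X.phi i b = X.phi i x + 1 at h'
    change ∃ p q r s w, X.f j a = some p ∧ X.f j p = some q ∧ X.f i q = some w ∧
      X.f i b = some r ∧ X.f i r = some s ∧ X.f j s = some w ∧
      X.eps j q = X.eps j w + 1 ∧ X.eps i s = X.eps i w + 1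
    obtain ⟨p, q, r, s, w, h1, h2, h3, h4, h5, h6, h7, h8⟩ :=
      hX.s6 i j (σ x) (σ a) (σ b) hij (hs _ _ _ ha) (hs _ _ _ hb)
      (by rw [heps, heps]; exact h) (by rw [heps, heps]; exact h')
    have hss : ∀ i c d, X.e i c = some d → X.f i (σ c) = some (σ d) := by
      intro i c d hcd
      apply hs'
      rw [hσ]
      exact hcd
    have hep : ∀ i c, X.eps i (σ c) = X.phi i c := heps
    refine ⟨σ p, σ q, σ r, σ s, σ w, hs' _ _ _ h1, hss _ _ _ h2, hss _ _ _ h3, hs' _ _ _ h4,
      hss _ _ _ h5, hss _ _ _ h6, ?_, ?_⟩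
    · rw [heps, heps]
      exact h7
    · rw [heps, heps]
      exact h8

/-! ### weights with small values on the roots -/

/-- weights with values in `{-1, 0, 1}` on the roots -/
def Small (lam : Y.Wt) : Prop := ∀ x : Y.I → ℤ, nm x = 2 → -1 ≤ pr x lam ∧ pr x lam ≤ 1

theorem Small.refl (hY : SL Y) {lam : Y.Wt} (h : Small lam) (i : Y.I) :
    Small (lam - lam i • Y.al i) := by
  intro x hx
  have h1 := h _ (nm_refl hY x hx i)
  rw [pr_add_left, pr_smul_left, pr_sg] at h1
  rw [pr_sub_right, pr_smul_right, pr_al hY]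
  constructor
  · linarith [h1.1]
  · linarith [h1.2]

theorem Small.add (hY : SL Y) {lam : Y.Wt} (h : Small lam) (i : Y.I) (hi : lam i = -1) :
    Small (lam + Y.al i) := by
  have h1 := h.refl hY i
  rw [hi, neg_one_smul, sub_neg_eq_add] at h1
  exact h1

theorem Small.sub (hY : SL Y) {lam : Y.Wt} (h : Small lam) (i : Y.I) (hi : lam i = 1) :
    Small (lam - Y.al i) := by
  have h1 := h.refl hY i
  rw [hi, one_smul] at h1
  exact h1

theorem Small.le {lam : Y.Wt} (h : Small lam) (i : Y.I) : -1 ≤ lam i ∧ lam i ≤ 1 := by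
  have h1 := h (sg i) (nm_sg i)
  rw [pr_sg] at h1
  exact h1

theorem Small.neg {lam : Y.Wt} (h : Small lam) : Small (-lam) := by
  intro x hx
  rw [pr_neg_right]
  have := h x hx
  omega

theorem al_self (i : Y.I) : Y.al i i = 2 := Y.diag i

/-- the crystal of small weights -/
noncomputable def mini (hY : SL Y) : Crystal Y where
  B := {lam : Y.Wt // Small lam}
  wt := fun lam => lam.1
  e := fun i lam => if h : lam.1 i = -1 then some ⟨lam.1 + Y.al i, lam.2.add hY i h⟩ else none
  f := fun i lam => if h : lam.1 i = 1 then some ⟨lam.1 - Y.al i, lam.2.sub hY i h⟩ else none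
  eps := fun i lam => (- lam.1 i).toNat
  phi := fun i lam => (lam.1 i).toNat
  f_iff := by
    rintro i ⟨b, hb⟩ ⟨b', hb'⟩
    dsimp only
    constructor
    · intro h
      split_ifs at h with h1
      have h2 : b - Y.al i = b' := congrArg Subtype.val (Option.some.inj h)
      have h3 : b' i = -1 := by
        rw [← h2, Pi.sub_apply, al_self, h1]
        norm_num
      rw [dif_pos h3]
      congr 1
      apply Subtype.ext
      change b' + Y.al i = b
      rw [← h2]
      abel
    · intro h
      split_ifs at h with h1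
      have h2 : b' + Y.al i = b := congrArg Subtype.val (Option.some.inj h)
      have h3 : b i = 1 := by
        rw [← h2, Pi.add_apply, al_self, h1]
        norm_num
      rw [dif_pos h3]
      congr 1
      apply Subtype.ext
      change b - Y.al i = b'
      rw [← h2]
      abel
  wt_e := by
    rintro i ⟨b, hb⟩ ⟨b', hb'⟩ h
    dsimp only at h ⊢
    split_ifs at h with h1
    exact (congrArg Subtype.val (Option.some.inj h)).symm
  eps_none := by
    rintro i ⟨b, hb⟩ h
    dsimp only at h ⊢
    split_ifs at h with h1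
    have := hb.le i
    omega
  eps_some := by
    rintro i ⟨b, hb⟩ ⟨b', hb'⟩ h
    dsimp only at h ⊢
    split_ifs at h with h1
    have h2 : b + Y.al i = b' := congrArg Subtype.val (Option.some.inj h)
    have h3 : b' i = 1 := by
      rw [← h2, Pi.add_apply, al_self, h1]
      norm_num
    omega
  phi_none := by
    rintro i ⟨b, hb⟩ h
    dsimp only at h ⊢
    split_ifs at h with h1
    have := hb.le i
    omega
  phi_some := by
    rintro i ⟨b, hb⟩ ⟨b', hb'⟩ h
    dsimp only at h ⊢
    split_ifs at h with h1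
    have h2 : b - Y.al i = b' := congrArg Subtype.val (Option.some.inj h)
    have h3 : b' i = -1 := by
      rw [← h2, Pi.sub_apply, al_self, h1]
      norm_num
    omega
  phi_eps := by
    rintro i ⟨b, hb⟩
    dsimp only
    omega

theorem al_apply_off (hY : SL Y) {i j : Y.I} (h : i ≠ j) :
    (Y.al i j = 0 ∧ Y.al j i = 0) ∨ (Y.al i j = -1 ∧ Y.al j i = -1) := by
  rcases hY j i (Ne.symm h) with ⟨h1, h2⟩ | ⟨h1, h2⟩
  · exact Or.inl ⟨h1, h2⟩
  · exact Or.inr ⟨h1, h2⟩

theorem nm_sg_add_sg (hY : SL Y) {i j : Y.I} (h : Y.al i j = -1) : nm (sg i + sg j) = 2 := by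
  rw [nm_add_sg hY, nm_sg, rwt_sg, h]
  norm_num

theorem mini_e (hY : SL Y) (i : Y.I) (b b' : (mini hY).B) :
    (mini hY).e i b = some b' ↔ b.1 i = -1 ∧ b'.1 = b.1 + Y.al i := by
  obtain ⟨b, hb⟩ := b
  obtain ⟨b', hb'⟩ := b'
  change (if h : b i = -1 then some (⟨b + Y.al i, hb.add hY i h⟩ : {lam : Y.Wt // Small lam})
    else none) = some ⟨b', hb'⟩ ↔ b i = -1 ∧ b' = b + Y.al i
  constructor
  · intro h
    split_ifs at h with h1
    exact ⟨h1, (congrArg Subtype.val (Option.some.inj h)).symm⟩
  · rintro ⟨h1, h2⟩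
    rw [dif_pos h1]
    congr 1
    exact Subtype.ext h2.symm

theorem mini_eps (hY : SL Y) (i : Y.I) (b : (mini hY).B) : (mini hY).eps i b = (- b.1 i).toNat :=
  rfl

theorem mini_phi (hY : SL Y) (i : Y.I) (b : (mini hY).B) : (mini hY).phi i b = (b.1 i).toNat :=
  rfl

theorem mini_StE (hY : SL Y) : StE (mini hY) := by
  refine ⟨?_, ?_, ?_⟩
  · intro i j x x' hij h
    rw [mini_e] at h
    rw [mini_eps, mini_eps, mini_phi, mini_phi, h.2, Pi.add_apply]
    rcases al_apply_off hY hij with ⟨h1, _⟩ | ⟨h1, _⟩ <;> rw [h1] <;> constructor <;> omega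
  · intro i j x a b hij ha hb h
    rw [mini_e] at ha hb
    rw [mini_eps, mini_eps, ha.2, Pi.add_apply, hb.1] at h
    have h0 : Y.al i j = 0 ∧ Y.al j i = 0 := by
      rcases al_apply_off hY hij with h1 | ⟨h1, _⟩
      · exact h1
      · rw [h1] at h
        omega
    have h1 : a.1 j = -1 := by
      rw [ha.2, Pi.add_apply, hb.1, h0.1]
      norm_num
    refine ⟨(⟨a.1 + Y.al j, a.2.add hY j h1⟩ : {lam : Y.Wt // Small lam}),
      (mini_e hY j a _).mpr ⟨h1, rfl⟩, (mini_e hY i b _).mpr ⟨?_, ?_⟩, ?_⟩
    · rw [hb.2, Pi.add_apply, ha.1, h0.2]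
      norm_num
    · change a.1 + Y.al j = b.1 + Y.al i
      rw [ha.2, hb.2]
      abel
    · change ((a.1 + Y.al j) i).toNat = (a.1 i).toNat
      rw [Pi.add_apply, h0.2, add_zero]
  · intro i j x a b hij ha hb h h'
    exfalso
    rw [mini_e] at ha hb
    rw [mini_eps, mini_eps, ha.2, Pi.add_apply, hb.1] at h
    have h0 : Y.al i j = -1 := by
      rcases al_apply_off hY hij with ⟨h1, _⟩ | ⟨h1, _⟩
      · rw [h1] at h
        omega
      · exact h1
    have h1 := x.2 (sg i + sg j) (nm_sg_add_sg hY h0)
    rw [pr_add_left, pr_sg, pr_sg, ha.1, hb.1] at h1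
    omega

theorem mini_St (hY : SL Y) : St (mini hY) := by
  refine ⟨mini_StE hY, stE_dual_of_symm (mini_StE hY) (fun b => ⟨-b.1, b.2.neg⟩) ?_ ?_ ?_ ?_⟩
  · intro b
    apply Subtype.ext
    exact neg_neg b.1
  · rintro i ⟨b, hb⟩
    change (if h : (-b) i = -1 then some (⟨-b + Y.al i, hb.neg.add hY i h⟩ :
      {lam : Y.Wt // Small lam}) else none) = Option.map _
      (if h : b i = 1 then some (⟨b - Y.al i, hb.sub hY i h⟩ : {lam : Y.Wt // Small lam})
      else none)
    by_cases h : b i = 1
    · rw [dif_pos h, dif_pos (by rw [Pi.neg_apply, h])]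
      change _ = some _
      congr 1
      apply Subtype.ext
      change -b + Y.al i = -(b - Y.al i)
      abel
    · rw [dif_neg h, dif_neg (by rw [Pi.neg_apply]; omega)]
      rfl
  · intro i b
    change (- (-b.1) i).toNat = (b.1 i).toNat
    rw [Pi.neg_apply, neg_neg]
  · intro i b
    rfl

/-! ### the adjoint crystal -/

/-- the adjoint crystal -/
noncomputable def adj (hY : SL Y) : Crystal Y where
  B := {x : Y.I → ℤ // nm x = 2} ⊕ Y.I
  wt := fun z => match z with
    | Sum.inl x => rwt x.1
    | Sum.inr _ => 0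
  e := fun i z => match z with
    | Sum.inl x => if h : rwt x.1 i = -1 then some (Sum.inl ⟨x.1 + sg i, by
          rw [nm_add_sg hY, x.2, h]; norm_num⟩)
        else if rwt x.1 i = -2 then some (Sum.inr i) else none
    | Sum.inr j => if j = i then some (Sum.inl ⟨sg i, nm_sg i⟩) else none
  f := fun i z => match z with
    | Sum.inl x => if h : rwt x.1 i = 1 then some (Sum.inl ⟨x.1 - sg i, by
          rw [nm_sub_sg hY, x.2, h]; norm_num⟩)
        else if rwt x.1 i = 2 then some (Sum.inr i) else none
    | Sum.inr j => if j = i then some (Sum.inl ⟨-sg i, by rw [nm_neg, nm_sg]⟩) else none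
  eps := fun i z => match z with
    | Sum.inl x => (- rwt x.1 i).toNat
    | Sum.inr j => if j = i then 1 else 0
  phi := fun i z => match z with
    | Sum.inl x => (rwt x.1 i).toNat
    | Sum.inr j => if j = i then 1 else 0
  f_iff := by
    rintro i (⟨x, hx⟩ | j) (⟨x', hx'⟩ | j')
    · dsimp only
      constructor
      · intro h
        split_ifs at h with h1 h2
        · have h2 : x - sg i = x' := congrArg Subtype.val (Sum.inl.inj (Option.some.inj h))
          have h3 : rwt x' i = -1 := by
            rw [← h2, rwt_sub, Pi.sub_apply, rwt_sg, al_self, h1]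
            norm_num
          rw [dif_pos h3]
          congr 2
          apply Subtype.ext
          change x' + sg i = x
          rw [← h2]
          abel
        · exact absurd (Option.some.inj h) (by simp)
      · intro h
        split_ifs at h with h1 h2
        · have h2 : x' + sg i = x := congrArg Subtype.val (Sum.inl.inj (Option.some.inj h))
          have h3 : rwt x i = 1 := by
            rw [← h2, rwt_add, Pi.add_apply, rwt_sg, al_self, h1]
            norm_num
          rw [dif_pos h3]
          congr 2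
          apply Subtype.ext
          change x - sg i = x'
          rw [← h2]
          abel
        · exact absurd (Option.some.inj h) (by simp)
    · dsimp only
      constructor
      · intro h
        split_ifs at h with h1 h2
        · exact absurd (Option.some.inj h) (by simp)
        · have h3 : i = j' := Sum.inr.inj (Option.some.inj h)
          subst h3
          rw [if_pos rfl]
          congr 2
          apply Subtype.ext
          exact (root_eq hY x hx i h2).symm
      · intro h
        split_ifs at h with h1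
        have h2 : sg i = x := congrArg Subtype.val (Sum.inl.inj (Option.some.inj h))
        have h3 : rwt x i = 2 := by rw [← h2, rwt_sg, al_self]
        rw [dif_neg (by omega), if_pos h3, h1]
    · dsimp only
      constructor
      · intro h
        split_ifs at h with h1
        have h2 : -sg i = x' := congrArg Subtype.val (Sum.inl.inj (Option.some.inj h))
        have h3 : rwt x' i = -2 := by rw [← h2, rwt_neg, Pi.neg_apply, rwt_sg, al_self]
        rw [dif_neg (by omega), if_pos h3, h1]
      · intro h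
        split_ifs at h with h1 h2
        · exact absurd (Option.some.inj h) (by simp)
        · have h3 : i = j := Sum.inr.inj (Option.some.inj h)
          subst h3
          rw [if_pos rfl]
          congr 2
          apply Subtype.ext
          exact (root_eq_neg hY x' hx' i h2).symm
    · dsimp only
      constructor
      · intro h
        split_ifs at h with h1
        exact absurd (Option.some.inj h) (by simp)
      · intro h
        split_ifs at h with h1
        exact absurd (Option.some.inj h) (by simp)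
  wt_e := by
    rintro i (⟨x, hx⟩ | j) (⟨x', hx'⟩ | j') h
    · dsimp only at h ⊢
      split_ifs at h with h1 h2
      · have h2 : x + sg i = x' := congrArg Subtype.val (Sum.inl.inj (Option.some.inj h))
        rw [← h2, rwt_add, rwt_sg]
      · exact absurd (Option.some.inj h) (by simp)
    · dsimp only at h ⊢
      split_ifs at h with h1 h2
      · exact absurd (Option.some.inj h) (by simp)
      · rw [root_eq_neg hY x hx i h2, rwt_neg, rwt_sg]
        abel
    · dsimp only at h ⊢
      split_ifs at h with h1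
      have h2 : sg i = x' := congrArg Subtype.val (Sum.inl.inj (Option.some.inj h))
      rw [← h2, rwt_sg, zero_add]
    · dsimp only at h ⊢
      split_ifs at h with h1
      exact absurd (Option.some.inj h) (by simp)
  eps_none := by
    rintro i (⟨x, hx⟩ | j) h
    · dsimp only at h ⊢
      split_ifs at h with h1 h2
      have := root_ge hY x hx i
      omega
    · dsimp only at h ⊢
      split_ifs at h with h1
      rw [if_neg h1]
  eps_some := by
    rintro i (⟨x, hx⟩ | j) (⟨x', hx'⟩ | j') h
    · dsimp only at h ⊢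
      split_ifs at h with h1 h2
      · have h2 : x + sg i = x' := congrArg Subtype.val (Sum.inl.inj (Option.some.inj h))
        have h3 : rwt x' i = 1 := by
          rw [← h2, rwt_add, Pi.add_apply, rwt_sg, al_self, h1]
          norm_num
        rw [h3, h1]
        rfl
      · exact absurd (Option.some.inj h) (by simp)
    · dsimp only at h ⊢
      split_ifs at h with h1 h2
      · exact absurd (Option.some.inj h) (by simp)
      · have h3 : i = j' := Sum.inr.inj (Option.some.inj h)
        rw [h2, if_pos h3.symm]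
        rfl
    · dsimp only at h ⊢
      split_ifs at h with h1
      have h2 : sg i = x' := congrArg Subtype.val (Sum.inl.inj (Option.some.inj h))
      rw [if_pos h1, ← h2, rwt_sg, al_self]
      rfl
    · dsimp only at h ⊢
      split_ifs at h with h1
      exact absurd (Option.some.inj h) (by simp)
  phi_none := by
    rintro i (⟨x, hx⟩ | j) h
    · dsimp only at h ⊢
      split_ifs at h with h1 h2
      have := root_le hY x hx i
      omega
    · dsimp only at h ⊢
      split_ifs at h with h1
      rw [if_neg h1]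
  phi_some := by
    rintro i (⟨x, hx⟩ | j) (⟨x', hx'⟩ | j') h
    · dsimp only at h ⊢
      split_ifs at h with h1 h2
      · have h2 : x - sg i = x' := congrArg Subtype.val (Sum.inl.inj (Option.some.inj h))
        have h3 : rwt x' i = -1 := by
          rw [← h2, rwt_sub, Pi.sub_apply, rwt_sg, al_self, h1]
          norm_num
        rw [h3, h1]
        rfl
      · exact absurd (Option.some.inj h) (by simp)
    · dsimp only at h ⊢
      split_ifs at h with h1 h2
      · exact absurd (Option.some.inj h) (by simp)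
      · have h3 : i = j' := Sum.inr.inj (Option.some.inj h)
        rw [h2, if_pos h3.symm]
        rfl
    · dsimp only at h ⊢
      split_ifs at h with h1
      have h2 : -sg i = x' := congrArg Subtype.val (Sum.inl.inj (Option.some.inj h))
      rw [if_pos h1, ← h2, rwt_neg, Pi.neg_apply, rwt_sg, al_self]
      rfl
    · dsimp only at h ⊢
      split_ifs at h with h1
      exact absurd (Option.some.inj h) (by simp)
  phi_eps := by
    rintro i (⟨x, hx⟩ | j)
    · dsimp only
      omega
    · dsimp only
      simp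

/-- the root as an element of the adjoint crystal -/
def rt (hY : SL Y) (x : Y.I → ℤ) (hx : nm x = 2) : (adj hY).B := Sum.inl ⟨x, hx⟩

/-- the elements of weight zero of the adjoint crystal -/
def zr (hY : SL Y) (j : Y.I) : (adj hY).B := Sum.inr j

theorem adj_cases (hY : SL Y) (z : (adj hY).B) :
    (∃ x hx, z = rt hY x hx) ∨ ∃ j, z = zr hY j := by
  rcases z with ⟨x, hx⟩ | j
  · exact Or.inl ⟨x, hx, rfl⟩
  · exact Or.inr ⟨j, rfl⟩

theorem adj_e_rt_rt (hY : SL Y) (i : Y.I) (x x' : Y.I → ℤ) (hx : nm x = 2) (hx' : nm x' = 2) :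
    (adj hY).e i (rt hY x hx) = some (rt hY x' hx') ↔ rwt x i = -1 ∧ x' = x + sg i := by
  change (if h : rwt x i = -1 then some (Sum.inl (⟨x + sg i, by
          rw [nm_add_sg hY, hx, h]; norm_num⟩ : {x : Y.I → ℤ // nm x = 2}))
        else if rwt x i = -2 then some (Sum.inr i) else none) = some (Sum.inl ⟨x', hx'⟩) ↔ _
  constructor
  · intro h
    split_ifs at h with h1 h2
    · exact ⟨h1, (congrArg Subtype.val (Sum.inl.inj (Option.some.inj h))).symm⟩
    · exact absurd (Option.some.inj h) (by simp)
  · rintro ⟨h1, h2⟩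
    rw [dif_pos h1]
    congr 2
    exact Subtype.ext h2.symm

theorem adj_e_rt_zr (hY : SL Y) (i j : Y.I) (x : Y.I → ℤ) (hx : nm x = 2) :
    (adj hY).e i (rt hY x hx) = some (zr hY j) ↔ x = -sg i ∧ j = i := by
  change (if h : rwt x i = -1 then some (Sum.inl (⟨x + sg i, by
          rw [nm_add_sg hY, hx, h]; norm_num⟩ : {x : Y.I → ℤ // nm x = 2}))
        else if rwt x i = -2 then some (Sum.inr i) else none) = some (Sum.inr j) ↔ _
  constructor
  · intro h
    split_ifs at h with h1 h2
    · exact absurd (Option.some.inj h) (by simp)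
    · exact ⟨root_eq_neg hY x hx i h2, (Sum.inr.inj (Option.some.inj h)).symm⟩
  · rintro ⟨h1, h2⟩
    have h3 : rwt x i = -2 := by rw [h1, rwt_neg, Pi.neg_apply, rwt_sg, al_self]
    rw [dif_neg (by omega), if_pos h3, h2]

theorem adj_e_zr_rt (hY : SL Y) (i j : Y.I) (x : Y.I → ℤ) (hx : nm x = 2) :
    (adj hY).e i (zr hY j) = some (rt hY x hx) ↔ j = i ∧ x = sg i := by
  change (if j = i then some (Sum.inl (⟨sg i, nm_sg i⟩ : {x : Y.I → ℤ // nm x = 2})) else none)
    = some (Sum.inl ⟨x, hx⟩) ↔ _
  constructor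
  · intro h
    split_ifs at h with h1
    exact ⟨h1, (congrArg Subtype.val (Sum.inl.inj (Option.some.inj h))).symm⟩
  · rintro ⟨h1, h2⟩
    rw [if_pos h1]
    congr 2
    exact Subtype.ext h2.symm

theorem adj_e_zr_zr (hY : SL Y) (i j k : Y.I) : (adj hY).e i (zr hY j) ≠ some (zr hY k) := by
  change (if j = i then some (Sum.inl (⟨sg i, nm_sg i⟩ : {x : Y.I → ℤ // nm x = 2})) else none)
    ≠ some (Sum.inr k)
  intro h
  split_ifs at h with h1
  exact absurd (Option.some.inj h) (by simp)

theorem adj_eps_rt (hY : SL Y) (i : Y.I) (x : Y.I → ℤ) (hx : nm x = 2) :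
    (adj hY).eps i (rt hY x hx) = (- rwt x i).toNat := rfl

theorem adj_phi_rt (hY : SL Y) (i : Y.I) (x : Y.I → ℤ) (hx : nm x = 2) :
    (adj hY).phi i (rt hY x hx) = (rwt x i).toNat := rfl

theorem adj_eps_zr (hY : SL Y) (i j : Y.I) :
    (adj hY).eps i (zr hY j) = if j = i then 1 else 0 := rfl

theorem adj_phi_zr (hY : SL Y) (i j : Y.I) :
    (adj hY).phi i (zr hY j) = if j = i then 1 else 0 := rfl

theorem adj_StE (hY : SL Y) : StE (adj hY) := by
  refine ⟨?_, ?_, ?_⟩
  · intro i j z z' hij h
    rcases adj_cases hY z with ⟨x, hx, rfl⟩ | ⟨k, rfl⟩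
    · rcases adj_cases hY z' with ⟨x', hx', rfl⟩ | ⟨k', rfl⟩
      · rw [adj_e_rt_rt] at h
        rw [adj_eps_rt, adj_eps_rt, adj_phi_rt, adj_phi_rt, h.2, rwt_add, rwt_sg, Pi.add_apply]
        rcases al_apply_off hY hij with ⟨h1, _⟩ | ⟨h1, _⟩ <;> rw [h1] <;> constructor <;> omega
      · rw [adj_e_rt_zr] at h
        obtain ⟨h1, rfl⟩ := h
        rw [adj_eps_rt, adj_eps_zr, adj_phi_rt, adj_phi_zr, if_neg hij, h1, rwt_neg, rwt_sg,
          Pi.neg_apply]
        rcases al_apply_off hY hij with ⟨h1, _⟩ | ⟨h1, _⟩ <;> rw [h1] <;> constructor <;> omega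
    · rcases adj_cases hY z' with ⟨x', hx', rfl⟩ | ⟨k', rfl⟩
      · rw [adj_e_zr_rt] at h
        obtain ⟨rfl, h1⟩ := h
        rw [adj_eps_rt, adj_eps_zr, adj_phi_rt, adj_phi_zr, if_neg hij, h1, rwt_sg]
        rcases al_apply_off hY hij with ⟨h1, _⟩ | ⟨h1, _⟩ <;> rw [h1] <;> constructor <;> omega
      · exact absurd h (adj_e_zr_zr hY _ _ _)
  · intro i j z a b hij ha hb h
    rcases adj_cases hY z with ⟨x, hx, rfl⟩ | ⟨k, rfl⟩
    · rcases adj_cases hY a with ⟨a, ha2, rfl⟩ | ⟨k, rfl⟩
      · rcases adj_cases hY b with ⟨b, hb2, rfl⟩ | ⟨k, rfl⟩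
        · rw [adj_e_rt_rt] at ha hb
          rw [adj_eps_rt, adj_eps_rt, ha.2, rwt_add, rwt_sg, Pi.add_apply, hb.1] at h
          have h0 : Y.al i j = 0 ∧ Y.al j i = 0 := by
            rcases al_apply_off hY hij with h1 | ⟨h1, _⟩
            · exact h1
            · rw [h1] at h
              omega
          have h1 : rwt a j = -1 := by
            rw [ha.2, rwt_add, rwt_sg, Pi.add_apply, hb.1, h0.1]
            norm_num
          have h2 : nm (a + sg j) = 2 := by
            rw [nm_add_sg hY, ha2, h1]
            norm_num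
          refine ⟨rt hY (a + sg j) h2, (adj_e_rt_rt hY j _ _ _ _).mpr ⟨h1, rfl⟩,
            (adj_e_rt_rt hY i _ _ _ _).mpr ⟨?_, ?_⟩, ?_⟩
          · rw [hb.2, rwt_add, rwt_sg, Pi.add_apply, ha.1, h0.2]
            norm_num
          · rw [ha.2, hb.2]
            abel
          · rw [adj_phi_rt, adj_phi_rt, rwt_add, rwt_sg, Pi.add_apply, h0.2, add_zero]
        · exfalso
          rw [adj_e_rt_rt] at ha
          rw [adj_e_rt_zr] at hb
          have h1 := ha.1
          rw [hb.1, rwt_neg, rwt_sg, Pi.neg_apply] at h1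
          rcases al_apply_off hY hij with ⟨_, h2⟩ | ⟨_, h2⟩ <;> rw [h2] at h1 <;> omega
      · exfalso
        rw [adj_e_rt_zr] at ha
        have h2 : Y.al i j ≤ 0 := by
          rcases al_apply_off hY hij with ⟨h2, _⟩ | ⟨h2, _⟩ <;> omega
        rcases adj_cases hY b with ⟨b, hb2, rfl⟩ | ⟨k, rfl⟩
        · rw [adj_e_rt_rt] at hb
          have h1 := hb.1
          rw [ha.1, rwt_neg, rwt_sg, Pi.neg_apply] at h1
          omega
        · rw [adj_e_rt_zr] at hb
          have h1 : rwt x j = rwt x j := rfl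
          conv_lhs at h1 => rw [ha.1, rwt_neg, rwt_sg, Pi.neg_apply]
          rw [hb.1, rwt_neg, rwt_sg, Pi.neg_apply, al_self] at h1
          omega
    · exfalso
      rcases adj_cases hY a with ⟨a, ha2, rfl⟩ | ⟨k', rfl⟩
      · rcases adj_cases hY b with ⟨b, hb2, rfl⟩ | ⟨k', rfl⟩
        · rw [adj_e_zr_rt] at ha hb
          exact hij (ha.1.symm.trans hb.1)
        · exact absurd hb (adj_e_zr_zr hY _ _ _)
      · exact absurd ha (adj_e_zr_zr hY _ _ _)
  · intro i j z a b hij ha hb h h'
    rcases adj_cases hY z with ⟨x, hx, rfl⟩ | ⟨k, rfl⟩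
    · rcases adj_cases hY a with ⟨a, ha2, rfl⟩ | ⟨k, rfl⟩
      · rcases adj_cases hY b with ⟨b, hb2, rfl⟩ | ⟨k, rfl⟩
        · rw [adj_e_rt_rt] at ha hb
          rw [adj_eps_rt, adj_eps_rt, ha.2, rwt_add, rwt_sg, Pi.add_apply, hb.1] at h
          have h0 : Y.al i j = -1 ∧ Y.al j i = -1 := by
            rcases al_apply_off hY hij with ⟨h1, _⟩ | h1
            · rw [h1] at h
              omega
            · exact h1
          have ha3 : a = -sg j := by
            apply root_eq_neg hY a ha2
            rw [ha.2, rwt_add, rwt_sg, Pi.add_apply, hb.1, h0.1]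
            norm_num
          have hb3 : b = -sg i := by
            apply root_eq_neg hY b hb2
            rw [hb.2, rwt_add, rwt_sg, Pi.add_apply, ha.1, h0.2]
            norm_num
          have h2 : nm (sg i + sg j) = 2 := nm_sg_add_sg hY h0.1
          refine ⟨zr hY j, rt hY (sg j) (nm_sg j), zr hY i, rt hY (sg i) (nm_sg i),
            rt hY (sg i + sg j) h2, (adj_e_rt_zr hY j _ _ _).mpr ⟨ha3, rfl⟩,
            (adj_e_zr_rt hY j _ _ _).mpr ⟨rfl, rfl⟩, (adj_e_rt_rt hY i _ _ _ _).mpr ⟨?_, ?_⟩,
            (adj_e_rt_zr hY i _ _ _).mpr ⟨hb3, rfl⟩,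
            (adj_e_zr_rt hY i _ _ _).mpr ⟨rfl, rfl⟩, (adj_e_rt_rt hY j _ _ _ _).mpr ⟨?_, rfl⟩,
            ?_, ?_⟩
          · rw [rwt_sg]
            exact h0.2
          · exact add_comm _ _
          · rw [rwt_sg]
            exact h0.1
          · rw [adj_phi_rt, adj_phi_rt, rwt_add, rwt_sg, rwt_sg, Pi.add_apply, al_self, h0.1]
            rfl
          · rw [adj_phi_rt, adj_phi_rt, rwt_add, rwt_sg, rwt_sg, Pi.add_apply, al_self, h0.2]
            rfl
        · exfalso
          rw [adj_e_rt_rt] at ha
          rw [adj_e_rt_zr] at hb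
          have h1 := ha.1
          rw [hb.1, rwt_neg, rwt_sg, Pi.neg_apply] at h1
          rcases al_apply_off hY hij with ⟨_, h2⟩ | ⟨_, h2⟩ <;> rw [h2] at h1 <;> omega
      · exfalso
        rw [adj_e_rt_zr] at ha
        have h2 : Y.al i j ≤ 0 := by
          rcases al_apply_off hY hij with ⟨h2, _⟩ | ⟨h2, _⟩ <;> omega
        rcases adj_cases hY b with ⟨b, hb2, rfl⟩ | ⟨k, rfl⟩
        · rw [adj_e_rt_rt] at hb
          have h1 := hb.1
          rw [ha.1, rwt_neg, rwt_sg, Pi.neg_apply] at h1
          omega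
        · rw [adj_e_rt_zr] at hb
          have h1 : rwt x j = rwt x j := rfl
          conv_lhs at h1 => rw [ha.1, rwt_neg, rwt_sg, Pi.neg_apply]
          rw [hb.1, rwt_neg, rwt_sg, Pi.neg_apply, al_self] at h1
          omega
    · exfalso
      rcases adj_cases hY a with ⟨a, ha2, rfl⟩ | ⟨k', rfl⟩
      · rcases adj_cases hY b with ⟨b, hb2, rfl⟩ | ⟨k', rfl⟩
        · rw [adj_e_zr_rt] at ha hb
          exact hij (ha.1.symm.trans hb.1)
        · exact absurd hb (adj_e_zr_zr hY _ _ _)
      · exact absurd ha (adj_e_zr_zr hY _ _ _)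

theorem adj_St (hY : SL Y) : St (adj hY) := by
  refine ⟨adj_StE hY, stE_dual_of_symm (adj_StE hY) (fun z => match z with
    | Sum.inl x => Sum.inl ⟨-x.1, by rw [nm_neg]; exact x.2⟩
    | Sum.inr j => Sum.inr j) ?_ ?_ ?_ ?_⟩
  · rintro (⟨x, hx⟩ | j)
    · change (Sum.inl ⟨- -x, _⟩ : {x : Y.I → ℤ // nm x = 2} ⊕ Y.I) = Sum.inl ⟨x, hx⟩
      congr 1
      apply Subtype.ext
      exact neg_neg x
    · rfl
  · rintro i (⟨x, hx⟩ | j)
    · change (if h : rwt (-x) i = -1 then some (Sum.inl (⟨-x + sg i, _⟩ :
          {x : Y.I → ℤ // nm x = 2})) else if rwt (-x) i = -2 then some (Sum.inr i) else none) =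
        Option.map _ (if h : rwt x i = 1 then some (Sum.inl (⟨x - sg i, _⟩ :
          {x : Y.I → ℤ // nm x = 2})) else if rwt x i = 2 then some (Sum.inr i) else none)
      have hn : rwt (-x) i = - rwt x i := by rw [rwt_neg, Pi.neg_apply]
      by_cases h1 : rwt x i = 1
      · rw [dif_pos h1, dif_pos (by rw [hn, h1])]
        change some (Sum.inl ⟨-x + sg i, _⟩ : {x : Y.I → ℤ // nm x = 2} ⊕ Y.I) =
          some (Sum.inl ⟨-(x - sg i), _⟩)
        congr 2
        apply Subtype.ext
        change -x + sg i = -(x - sg i)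
        abel
      · rw [dif_neg h1, dif_neg (by rw [hn]; omega)]
        by_cases h2 : rwt x i = 2
        · rw [if_pos h2, if_pos (by rw [hn, h2])]
          rfl
        · rw [if_neg h2, if_neg (by rw [hn]; omega)]
          rfl
    · change (if j = i then some (Sum.inl (⟨sg i, nm_sg i⟩ : {x : Y.I → ℤ // nm x = 2}))
        else none) = Option.map _ (if j = i then some (Sum.inl (⟨-sg i, _⟩ :
        {x : Y.I → ℤ // nm x = 2})) else none)
      by_cases h : j = i
      · rw [if_pos h, if_pos h]
        change some (Sum.inl ⟨sg i, _⟩ : {x : Y.I → ℤ // nm x = 2} ⊕ Y.I) =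
          some (Sum.inl ⟨- -sg i, _⟩)
        congr 2
        apply Subtype.ext
        exact (neg_neg _).symm
      · rw [if_neg h, if_neg h]
        rfl
  · rintro i (⟨x, hx⟩ | j)
    · change (- rwt (-x) i).toNat = (rwt x i).toNat
      rw [rwt_neg, Pi.neg_apply, neg_neg]
    · rfl
  · rintro i (⟨x, hx⟩ | j)
    · change (rwt (-x) i).toNat = (- rwt x i).toNat
      rw [rwt_neg, Pi.neg_apply]
    · rfl

end Pool.Agent.H73.KM
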