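import Pool.Agent.H73.KM.Seeds

/-!
Every dominant weight is the weight of the highest element of a Stembridge crystal.
-/

set_option autoImplicit false

open scoped Classical

namespace Pool.Agent.H73.KM

open Pool.Agent.H59.KY Pool.Agent.H94.KM

variable {Y : Cartan}

/-- multiplication by the Cartan matrix -/
noncomputable def mulA (Y : Cartan) : (Y.I → ℚ) →ₗ[ℚ] (Y.I → ℚ) where
  toFun := fun y i => ∑ j, (Y.A i j : ℚ) * y j
  map_add' := by
    intro x y
    funext i
    simp only [Pi.add_apply, mul_add, Finset.sum_add_distrib]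
  map_smul' := by
    intro c x
    funext i
    simp only [Pi.smul_apply, smul_eq_mul, RingHom.id_apply, Finset.mul_sum]
    exact Finset.sum_congr rfl (fun j _ => by ring)

theorem qf_eq (x : Y.I → ℚ) : qf x = ∑ i, x i * mulA Y x i := by
  unfold qf
  refine Finset.sum_congr rfl (fun i _ => ?_)
  change _ = x i * ∑ j, (Y.A i j : ℚ) * x j
  rw [Finset.mul_sum]
  exact Finset.sum_congr rfl (fun j _ => by ring)

theorem qf_nonneg (hY : SL Y) (x : Y.I → ℚ) : 0 ≤ qf x := by
  by_cases hx : x = 0
  · rw [hx]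
    simp [qf]
  · exact (qf_pos hY x hx).le

theorem mulA_surj (hY : SL Y) (v : Y.I → ℚ) : ∃ y, mulA Y y = v := by
  have hinj : Function.Injective (mulA Y) := by
    rw [injective_iff_map_eq_zero]
    intro y hy
    by_contra hne
    have h1 := qf_pos hY y hne
    rw [qf_eq, hy] at h1
    simp at h1
  exact (LinearMap.injective_iff_surjective.mp hinj) v

theorem qf_sub_cast (hY : SL Y) (lam : Y.Wt) (y : Y.I → ℚ)
    (hy : mulA Y y = fun i => (lam i : ℚ)) (x : Y.I → ℤ) :
    qf (y - fun i => (x i : ℚ)) = qf y - 2 * (pr x lam : ℚ) + (nm x : ℚ) := by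
  have h1 : ∑ i, (x i : ℚ) * mulA Y y i = (pr x lam : ℚ) := by
    rw [hy]
    unfold pr
    push_cast
    rfl
  have h2 : ∑ i, y i * mulA Y (fun i => (x i : ℚ)) i = (pr x lam : ℚ) := by
    rw [← h1]
    change ∑ i, y i * ∑ j, (Y.A i j : ℚ) * (x j : ℚ) = ∑ i, (x i : ℚ) * ∑ j, (Y.A i j : ℚ) * y j
    simp only [Finset.mul_sum]
    rw [Finset.sum_comm]
    refine Finset.sum_congr rfl (fun i _ => Finset.sum_congr rfl (fun j _ => ?_))
    rw [sl_symm hY i j]
    ring
  rw [← qf_cast, qf_eq, qf_eq, qf_eq, map_sub]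
  simp only [Pi.sub_apply, sub_mul, mul_sub, Finset.sum_sub_distrib]
  rw [h1, h2]
  ring

theorem pr_nonneg {x : Y.I → ℤ} (hx : ∀ i, 0 ≤ x i) {lam : Y.Wt} (hl : ∀ i, 0 ≤ lam i) :
    0 ≤ pr x lam := Finset.sum_nonneg (fun i _ => mul_nonneg (hx i) (hl i))

/-- a dominant weight which is not small, minus a suitable root, is dominant -/
theorem exists_root (hY : SL Y) (lam : Y.Wt) (hl : ∀ i, 0 ≤ lam i) (hs : ¬ Small lam) :
    ∃ x : Y.I → ℤ, nm x = 2 ∧ 2 ≤ pr x lam ∧ ∀ i, rwt x i ≤ lam i := by
  let S : Set (Y.I → ℤ) := {x | nm x = 2 ∧ (∀ i, 0 ≤ x i) ∧ 2 ≤ pr x lam}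
  have hne : S.Nonempty := by
    unfold Small at hs
    push Not at hs
    obtain ⟨x, hx, h⟩ := hs
    rcases root_sign hY x hx with h0 | h0
    · have h1 := pr_nonneg h0 hl
      exact ⟨x, hx, h0, by have := h (by omega); omega⟩
    · have h3 : ∀ i, 0 ≤ (-x) i := fun i => by rw [Pi.neg_apply]; have := h0 i; omega
      have h1 := pr_nonneg h3 hl
      rw [pr_neg_left] at h1
      refine ⟨-x, ?_, h3, ?_⟩
      · rw [nm_neg]
        exact hx
      · rw [pr_neg_left]
        by_contra hcon
        have := h (by omega)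
        omega
  obtain ⟨x, ⟨hx, hx0, hx2⟩, hmin⟩ := WellFounded.has_min
    (InvImage.wf (fun x : Y.I → ℤ => (∑ i, x i).toNat) (inferInstance : WellFoundedRelation ℕ).wf)
    S hne
  refine ⟨x, hx, hx2, fun i => ?_⟩
  have h2 := root_le hY x hx i
  have h3 := hl i
  by_contra hcon
  push Not at hcon
  by_cases h4 : rwt x i = 2
  · rw [root_eq hY x hx i h4, pr_sg] at hx2
    omega
  · have h5 : rwt x i = 1 := by omega
    have h6 : lam i = 0 := by omega
    have h7 : nm (x - sg i) = 2 := by
      rw [nm_sub_sg hY, hx, h5]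
      norm_num
    have h8 : pr (x - sg i) lam = pr x lam := by
      rw [pr_sub_left, pr_sg, h6, sub_zero]
    have h9 : ∀ k, 0 ≤ (x - sg i) k := by
      rcases root_sign hY _ h7 with h | h
      · exact h
      · exfalso
        have h10 : ∀ k, 0 ≤ (-(x - sg i)) k := fun k => by
          have := h k
          rw [Pi.neg_apply]
          omega
        have h11 := pr_nonneg h10 hl
        rw [pr_neg_left, h8] at h11
        omega
    apply hmin (x - sg i) ⟨h7, h9, by rw [h8]; exact hx2⟩
    change (∑ k, (x - sg i) k).toNat < (∑ k, x k).toNat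
    have h12 : ∑ k, (x - sg i) k = (∑ k, x k) - 1 := by
      simp only [Pi.sub_apply, Finset.sum_sub_distrib]
      congr 1
      simp [sg, Pi.single_apply]
    have h13 : 0 ≤ ∑ k, (x - sg i) k := Finset.sum_nonneg (fun k _ => h9 k)
    omega

theorem exists_hw_of (hY : SL Y)
    (htens : ∀ X Z : Crystal Y, St X → St Z → St (X.tensor Z))
    (hcomp : ∀ (X : Crystal Y) (u : X.B), St X → (∀ i, X.e i u = none) →
      ∃ (X' : Crystal Y) (u' : X'.B), St X' ∧ Gen X' u' ∧ X'.wt u' = X.wt u)
    (lam : Y.I → ℕ) :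
    ∃ (X : Crystal Y) (u : X.B), St X ∧ Gen X u ∧ ∀ i, X.wt u i = lam i := by
  have key : ∀ n : ℕ, ∀ (lam : Y.I → ℕ) (y : Y.I → ℚ),
      (mulA Y y = fun i => (((lam i : ℕ) : ℤ) : ℚ)) → qf y ≤ n →
      ∃ (X : Crystal Y) (u : X.B), St X ∧ Gen X u ∧ ∀ i, X.wt u i = lam i := by
    intro n
    induction n using Nat.strong_induction_on with
    | _ n ih =>
      intro lam y hy hn
      have hl : ∀ i, (0 : ℤ) ≤ (fun i => (lam i : ℤ)) i := fun i => Int.natCast_nonneg _
      by_cases hs : Small (fun i => (lam i : ℤ) : Y.Wt)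
      · obtain ⟨X, u, h1, h2, h3⟩ := hcomp (mini hY) ⟨_, hs⟩ (mini_St hY) (by
          intro i
          by_contra hne
          obtain ⟨b', hb'⟩ := Option.ne_none_iff_exists'.mp hne
          have h0 : (lam i : ℤ) = -1 := ((mini_e hY i _ b').mp hb').1
          omega)
        exact ⟨X, u, h1, h2, fun i => by rw [h3]; rfl⟩
      · obtain ⟨x, hx, hx2, hdom⟩ := exists_root hY _ hl hs
        have hq := qf_sub_cast hY (fun i => (lam i : ℤ)) y hy x
        have hq0 := qf_nonneg hY (y - fun i => (x i : ℚ))
        have hx2' : (2 : ℚ) ≤ (pr x (fun i => (lam i : ℤ)) : ℚ) := by exact_mod_cast hx2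
        have hx' : (nm x : ℚ) = 2 := by exact_mod_cast hx
        rw [hx'] at hq
        have hn1 : 1 ≤ n := by
          by_contra hcon
          have : n = 0 := by omega
          rw [this] at hn
          push_cast at hn
          linarith
        obtain ⟨X, u, h1, h2, h3⟩ := ih (n - 1) (by omega)
          (fun i => ((lam i : ℤ) - rwt x i).toNat) (y - fun i => (x i : ℚ)) (by
            rw [map_sub, hy]
            funext i
            rw [Pi.sub_apply, Int.toNat_of_nonneg (by have := hdom i; omega)]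
            push_cast
            congr 1
            change ∑ j, (Y.A i j : ℚ) * (x j : ℚ) = ((∑ j, Y.A i j * x j : ℤ) : ℚ)
            push_cast
            rfl) (by
            rw [Nat.cast_sub hn1]
            push_cast
            linarith)
        have hphi : ∀ i, (X.phi i u : ℤ) = (lam i : ℤ) - rwt x i := by
          intro i
          have h4 := X.phi_eps i u
          rw [X.eps_none i u (h2.1 i), h3 i] at h4
          rw [h4, Int.toNat_of_nonneg (by have := hdom i; omega)]
          push_cast
          ring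
        obtain ⟨X', u', h4, h5, h6⟩ := hcomp ((adj hY).tensor X) (rt hY x hx, u)
          (htens _ _ (adj_St hY) h1) (by
            intro i
            change (if X.phi i u < (adj hY).eps i (rt hY x hx) then _
              else (X.e i u).map _) = none
            rw [if_neg, h2.1 i]
            · rfl
            · rw [adj_eps_rt]
              have h7 := hphi i
              omega)
        refine ⟨X', u', h4, h5, fun i => ?_⟩
        rw [h6]
        change (rwt x + X.wt u) i = _
        rw [Pi.add_apply, h3 i, Int.toNat_of_nonneg (by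
          have := hdom i; omega)]
        ring
  obtain ⟨y, hy⟩ := mulA_surj hY (fun i => (((lam i : ℕ) : ℤ) : ℚ))
  obtain ⟨n, hn⟩ := exists_nat_ge (qf y)
  exact key n lam y hy hn

end Pool.Agent.H73.KM
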